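import Pool.Agent.Lib.MP_802e1f_co.Main

set_option autoImplicit false

namespace Pool.Agent.Results.MP_802e1f_co.BeckFiala

theorem result :
    ∀ t : ℕ, 1 ≤ t → ∀ m n : ℕ, ∀ f : Fin n → Finset (Fin m) → ℝ,
      (∀ i : Fin n, ∀ S : Finset (Fin m), ∀ g : Fin m,
          |f i (insert g S) - f i S| ≤ 1) →
      (∀ g : Fin m,
          {i : Fin n | ∃ S : Finset (Fin m), f i S ≠ f i (insert g S)}.ncard ≤ t) →
      ∃ S : Finset (Fin m), ∀ i : Fin n, |f i S - f i Sᶜ| ≤ 2 * (t : ℝ) - 1 := by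
  intro t h1 m n f hL ht
  obtain ⟨S, hS⟩ := Pool.Agent.Lib.MP_802e1f_co.beck_fiala t m n f hL ht
  refine ⟨S, fun i => (hS i).trans (le_of_eq ?_)⟩
  rw [Nat.cast_sub (by omega)]
  push_cast
  ring

end Pool.Agent.Results.MP_802e1f_co.BeckFiala
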